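import Pool.Agent.U644.BY.Core

/-!
# The Bogomolov–Miyaoka–Yau inequality for symplectic four-manifolds: the equality case

Let `P` be a property of closed symplectic four-manifolds which is invariant under blow-ups, for
instance to have a given fundamental group or a given `b⁺`.  The inequality `c₁² ≤ 3 c₂` for all
manifolds with `P` and `b⁺ > 1` holds if and only if all those with `c₁² = 3 c₂` are minimal.  So Q1 is
a statement about the manifolds on the line `c₁² = 3 c₂`.

For manifolds which contain a symplectic torus of square zero the inequality is equivalent to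
`c₁² ≤ 3 c₂ + δ |c₂| + C(δ)` for all `δ > 0`, by iterated fibre sums.
-/

namespace Pool.Agent.Results.MP_872606_gt.EqualityCase

open Pool.Agent.U644.BY

universe u

/-- **Theorem.** -/
theorem result (S : Symp.{u}) :
    (∀ P : S.M → Prop, (∀ X, P (S.bl X) ↔ P X) →
      ((∀ X, P X → 1 < S.bp X → S.c1sq X ≤ 3 * S.e X) ↔
        (∀ X, P X → 1 < S.bp X → S.c1sq X = 3 * S.e X → S.Minimal X)) ∧
      ((∀ X, P X → 1 < S.bp X → S.c1sq X ≤ 3 * S.e X) ↔
        (∀ X, P X → 1 < S.bp X → S.Minimal X → S.c1sq X ≤ 3 * S.e X))) ∧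
    (∀ F : TorusSums S,
      (∀ X, F.tor X → 1 < S.bp X → S.c1sq X ≤ 3 * S.e X) ↔
        (∀ δ : ℝ, 0 < δ → ∃ C : ℝ, ∀ X, F.tor X → 1 < S.bp X →
          (S.c1sq X : ℝ) ≤ 3 * S.e X + δ * |(S.e X : ℝ)| + C)) :=
  ⟨fun P hP => ⟨line_iff P hP, minimal_iff P hP⟩, fun F => torus_iff F⟩

end Pool.Agent.Results.MP_872606_gt.EqualityCase
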