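import Pool.Agent.U644.BY.Line

set_option autoImplicit false

/-!
# The Bogomolov-Miyaoka-Yau inequality and finite coverings

Let `P` be a class of closed symplectic four-manifolds which is closed under finite coverings, such
that each member has finite coverings of arbitrarily large degree (for example the manifolds with
`b₁ > 0`, or those with infinite residually finite fundamental group). The inequality `c₁² ≤ 3 c₂`
holds for all members with `b⁺ > 1` if and only if it holds for them up to an error `o(c₂) + O(1)`; and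
the inequality for `b⁺ > 1` (Q1) implies the inequality for all manifolds with `b⁺ = 1` which have a
finite covering with `b⁺ > 1`.

Proof. Coverings of degree `n` multiply `3 σ - e` by `n`.
-/

namespace Pool.Agent.Results.MP_872606_gt.FiniteCoverings

open Pool.Agent.U644.BY

universe u

/-- Finite coverings of the members of `S`. -/
structure Coverings (S : Symp.{u}) where
  /-- `cov X n Y`: `Y` is a connected covering of `X` of degree `n`, with the pulled back form -/
  cov : S.M → ℕ → S.M → Prop
  pos : ∀ X n Y, cov X n Y → 1 ≤ n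
  e_cov : ∀ X n Y, cov X n Y → S.e Y = n * S.e X
  sg_cov : ∀ X n Y, cov X n Y → S.sg Y = n * S.sg X
  bp_cov : ∀ X n Y, cov X n Y → S.bp X ≤ S.bp Y

/-- `P` is closed under finite coverings, and its members have coverings of arbitrarily large
degree. -/
def Large {S : Symp.{u}} (C : Coverings S) (P : S.M → Prop) : Prop :=
  (∀ X n Y, P X → C.cov X n Y → P Y) ∧ ∀ X, P X → ∀ N : ℕ, ∃ n Y, N ≤ n ∧ C.cov X n Y

lemma exc_cov {S : Symp.{u}} (C : Coverings S) (X Y : S.M) (n : ℕ) (h : C.cov X n Y) :
    exc Y = n * exc X := by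
  unfold exc
  rw [C.e_cov X n Y h, C.sg_cov X n Y h]
  ring

/-- **Theorem.** -/
theorem result (S : Symp.{u}) (C : Coverings S) :
    (∀ P : S.M → Prop, Large C P →
      ((∀ X, P X → 1 < S.bp X → S.c1sq X ≤ 3 * S.e X) ↔
        ∀ δ : ℝ, 0 < δ → ∃ K : ℝ, ∀ X, P X → 1 < S.bp X →
          (S.c1sq X : ℝ) ≤ 3 * S.e X + δ * |(S.e X : ℝ)| + K)) ∧
    ((∀ X, 1 < S.bp X → S.c1sq X ≤ 3 * S.e X) →
      ∀ X n Y, C.cov X n Y → 1 < S.bp Y → S.c1sq X ≤ 3 * S.e X) := by
  constructor
  · intro P hP
    constructor
    · intro h δ hδ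
      refine ⟨0, fun X h1 h2 => ?_⟩
      have h3 : (S.c1sq X : ℝ) ≤ 3 * S.e X := by exact_mod_cast h X h1 h2
      have h4 : 0 ≤ δ * |(S.e X : ℝ)| := by positivity
      linarith
    · intro h X h1 h2
      by_contra hX
      rw [c1_le_iff] at hX
      push Not at hX
      have hpos : (0 : ℝ) < exc X := by exact_mod_cast hX
      have hd : (0 : ℝ) < 2 * (|(S.e X : ℝ)| + 1) := by positivity
      obtain ⟨K, hK⟩ := h ((exc X : ℝ) / (2 * (|(S.e X : ℝ)| + 1))) (by positivity)
      obtain ⟨N, hN⟩ := exists_nat_gt (2 * K / (exc X : ℝ))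
      obtain ⟨n, Y, hn, hY⟩ := hP.2 X h1 (N + 1)
      have h5 := hK Y (hP.1 X n Y h1 hY) (lt_of_lt_of_le h2 (C.bp_cov X n Y hY))
      have h6 := exc_cov C X Y n hY
      have h7 : (S.c1sq Y : ℝ) = 3 * S.e Y + n * exc X := by
        have : S.c1sq Y = 3 * S.e Y + exc Y := by
          unfold Symp.c1sq exc
          ring
        rw [this, h6]
        push_cast
        ring
      have h8 : |(S.e Y : ℝ)| = n * |(S.e X : ℝ)| := by
        rw [C.e_cov X n Y hY]
        push_cast
        rw [abs_mul, Nat.abs_cast]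
      rw [h7, h8] at h5
      have hn0 : (0 : ℝ) ≤ n := Nat.cast_nonneg n
      have h9 : (exc X : ℝ) / (2 * (|(S.e X : ℝ)| + 1)) * (n * |(S.e X : ℝ)|) ≤
          n * exc X / 2 := by
        rw [div_mul_eq_mul_div, div_le_div_iff₀ hd (by norm_num : (0 : ℝ) < 2)]
        have h10 : 0 ≤ (n : ℝ) * exc X := by positivity
        nlinarith
      have h11 : (n : ℝ) * exc X / 2 ≤ K := by linarith
      have h12 : 2 * K < N * exc X := by
        rwa [div_lt_iff₀ hpos] at hN
      have h13 : (N : ℝ) + 1 ≤ n := by exact_mod_cast hn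
      nlinarith
  · intro h X n Y hY hb
    rw [c1_le_iff]
    have h1 := (c1_le_iff Y).1 (h Y hb)
    rw [exc_cov C X Y n hY] at h1
    have h2 : (1 : ℤ) ≤ n := by exact_mod_cast C.pos X n Y hY
    by_contra h3
    push Not at h3
    have : 0 < (n : ℤ) * exc X := by positivity
    linarith

end Pool.Agent.Results.MP_872606_gt.FiniteCoverings
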